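import Pool.Agent.N848.SK.Stm

/-!
# Project SK (helper848), part TRE (helper364): transport of two systems of linear equations along an
injection
-/

set_option autoImplicit false
set_option linter.unusedVariables false

open scoped Classical

namespace Pool.Agent.N364.SK

open Finset
open Pool.Agent.N848.AW (Cst dt Lp)
open Pool.Agent.N848.SK

section tr

variable {V W : Type} [Fintype W] {S : Finset V} {φ : W → V} {A : V → V → ZMod 2}
  {M : W → W → ZMod 2}

theorem tre_self (a : ZMod 2) : a + a = 0 := by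
  revert a
  decide

theorem tre_img (hS : ∀ x, x ∈ S ↔ ∃ w, φ w = x) : S = univ.image φ := by
  ext x
  rw [hS, Finset.mem_image]
  constructor
  · rintro ⟨w, hw⟩
    exact ⟨w, Finset.mem_univ _, hw⟩
  · rintro ⟨w, -, hw⟩
    exact ⟨w, hw⟩

theorem tre_Lp (hφ : Function.Injective φ) (hS : ∀ x, x ∈ S ↔ ∃ w, φ w = x)
    (hM : ∀ v w, v ≠ w → M v w = A (φ v) (φ w)) (x : V → ZMod 2) (v : W) :
    Lp S A x (φ v) = Lp univ M (fun w => x (φ w)) v := by
  unfold Lp
  rw [tre_img hS, Finset.sum_image (fun a _ b _ h => hφ h)]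
  refine Finset.sum_congr rfl fun w _ => ?_
  by_cases h : v = w
  · rw [h, tre_self, mul_zero, mul_zero]
  · rw [hM v w h]

theorem tre_dt (hφ : Function.Injective φ) (hS : ∀ x, x ∈ S ↔ ∃ w, φ w = x) (f x : V → ZMod 2) :
    dt S f x = dt univ (fun w => f (φ w)) (fun w => x (φ w)) := by
  unfold dt
  rw [tre_img hS, Finset.sum_image (fun a _ b _ h => hφ h)]

theorem tre_Cst (hS : ∀ x, x ∈ S ↔ ∃ w, φ w = x) (x : V → ZMod 2) :
    Cst S x ↔ Cst univ (fun w => x (φ w)) := by
  unfold Cst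
  constructor
  · rintro ⟨c, hc⟩
    exact ⟨c, fun w _ => hc _ ((hS _).2 ⟨w, rfl⟩)⟩
  · rintro ⟨c, hc⟩
    refine ⟨c, fun v hv => ?_⟩
    rw [hS] at hv
    obtain ⟨w, rfl⟩ := hv
    exact hc w (Finset.mem_univ _)

omit [Fintype W] in
theorem tre_lift (hφ : Function.Injective φ) (y : W → ZMod 2) :
    ∃ x : V → ZMod 2, (fun w => x (φ w)) = y := by
  refine ⟨fun v => if h : ∃ w, φ w = v then y h.choose else 0, ?_⟩
  funext w
  have hex : ∃ w', φ w' = φ w := ⟨w, rfl⟩
  show (if h : ∃ w', φ w' = φ w then y h.choose else 0) = y w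
  rw [dif_pos hex]
  exact congrArg y (hφ hex.choose_spec)

end tr

theorem t_TRE : Pool.Agent.N848.SK.S_TRE := by
  constructor
  · intro V W _ S φ A M t g h hφ hS hM
    constructor
    · intro hE y hy0 hy
      obtain ⟨x, rfl⟩ := tre_lift hφ y
      rw [← tre_Cst hS]
      refine hE x ?_ fun p hp => ?_
      · rw [tre_dt hφ hS]
        exact hy0
      · rw [hS] at hp
        obtain ⟨w, rfl⟩ := hp
        rw [tre_Lp hφ hS hM]
        exact hy w (Finset.mem_univ _)
    · intro hE x hx0 hx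
      rw [tre_Cst hS]
      refine hE _ ?_ fun w _ => ?_
      · rw [← tre_dt hφ hS]
        exact hx0
      · rw [← tre_Lp hφ hS hM]
        exact hx (φ w) ((hS _).2 ⟨w, rfl⟩)
  · intro V W _ S φ A M t g h hφ hS hM
    constructor
    · intro hE y hy0 hy
      obtain ⟨x, rfl⟩ := tre_lift hφ y
      rw [← tre_Cst hS]
      refine hE x ?_ fun p hp => ?_
      · rw [tre_dt hφ hS, tre_dt hφ hS, tre_dt hφ hS]
        exact hy0
      · rw [hS] at hp
        obtain ⟨w, rfl⟩ := hp
        rw [tre_Lp hφ hS hM, tre_dt hφ hS, tre_dt hφ hS]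
        exact hy w (Finset.mem_univ _)
    · intro hE x hx0 hx
      rw [tre_Cst hS]
      refine hE _ ?_ fun w _ => ?_
      · rw [← tre_dt hφ hS, ← tre_dt hφ hS, ← tre_dt hφ hS]
        exact hx0
      · have h1 := hx (φ w) ((hS _).2 ⟨w, rfl⟩)
        rw [tre_Lp hφ hS hM, tre_dt hφ hS, tre_dt hφ hS] at h1
        exact h1

end Pool.Agent.N364.SK
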